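import Pool.Agent.K1H25.HF.Stm

/-!
# Piece HF-LARGE for helper25
-/

set_option autoImplicit false

namespace Pool.Agent.K1H65.HF

open Filter K1H25.HF

lemma exp_lin {c : ℝ} (hc : 0 < c) : Tendsto (fun x : ℝ => Real.exp (c * x)) atTop atTop :=
  Real.tendsto_exp_atTop.comp (tendsto_id.const_mul_atTop hc)

lemma exp_neg {c : ℝ} (hc : 0 < c) (a : ℝ) :
    Tendsto (fun x : ℝ => a * Real.exp (-(c * x))) atTop (nhds 0) := by
  have h1 : Tendsto (fun x : ℝ => Real.exp (-(c * x))) atTop (nhds 0) :=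
    Real.tendsto_exp_neg_atTop_nhds_zero.comp (tendsto_id.const_mul_atTop hc)
  simpa using h1.const_mul a

lemma pow_exp {c : ℝ} (hc : 0 < c) (n : ℕ) (a : ℝ) :
    Tendsto (fun x : ℝ => a * (3 * (x + 1)) ^ n * Real.exp (-(c * x))) atTop (nhds 0) := by
  have h1 : Tendsto (fun x : ℝ => (c * (x + 1)) ^ n * Real.exp (-(c * (x + 1)))) atTop (nhds 0) :=
    (Real.tendsto_pow_mul_exp_neg_atTop_nhds_zero n).comp
      ((tendsto_atTop_add_const_right _ 1 tendsto_id).const_mul_atTop hc)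
  have h2 := h1.const_mul (a * (3 / c) ^ n * Real.exp c)
  rw [mul_zero] at h2
  refine h2.congr fun x => ?_
  have h3 : Real.exp (-(c * x)) = Real.exp c * Real.exp (-(c * (x + 1))) := by
    rw [← Real.exp_add]
    congr 1
    ring
  rw [h3, show (3 * (x + 1)) ^ n = (3 / c) ^ n * (c * (x + 1)) ^ n by
    rw [← mul_pow]
    congr 1
    field_simp]
  ring

theorem t_LARGE : S_LARGE := by
  intro n T γ B hγ hT
  have hT' : (0 : ℝ) < (T : ℝ) ^ 2 := by positivity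
  have e1 : ∀ᶠ x : ℝ in atTop, ((T : ℝ) + 1) ^ n * Real.exp (-(((T : ℝ) ^ 2)⁻¹ * x)) ≤ 1 / 8 :=
    (exp_neg (inv_pos.mpr hT') _).eventually_le_const (by norm_num)
  have e2 : ∀ᶠ x : ℝ in atTop, 8 / 7 ≤ Real.exp (γ / 16 * x) :=
    (exp_lin (by positivity)).eventually_ge_atTop _
  have e3 : ∀ᶠ x : ℝ in atTop, B ≤ Real.exp (γ / 8 * x) :=
    (exp_lin (by positivity)).eventually_ge_atTop _
  have e4 : ∀ᶠ x : ℝ in atTop,
      (((T : ℝ) + 1) ^ n * B) * (3 * (x + 1)) ^ n * Real.exp (-(γ / 2 * x)) ≤ 1 :=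
    (pow_exp (by positivity) n _).eventually_le_const (by norm_num)
  have hF : 0 < (T ^ 2).factorial := Nat.factorial_pos _
  have hseq : Tendsto (fun s : ℕ => (((T ^ 2).factorial * s : ℕ) : ℝ)) atTop atTop := by
    refine tendsto_natCast_atTop_atTop.comp ?_
    exact tendsto_id.const_mul_atTop' hF
  obtain ⟨s, hs⟩ := ((hseq.eventually (e1.and (e2.and (e3.and e4)))).and
    (eventually_gt_atTop 0)).exists
  obtain ⟨⟨h1, h2, h3, h4⟩, hs0⟩ := hs
  refine ⟨(T ^ 2).factorial * s, dvd_mul_right _ _, Nat.mul_pos hF hs0, ?_, ?_, ?_, ?_⟩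
  · refine le_trans (le_of_eq ?_) h1
    congr 2
    rw [neg_div, div_eq_inv_mul]
  · refine h2.trans (le_of_eq ?_)
    congr 1
    ring
  · refine h3.trans (le_of_eq ?_)
    congr 1
    ring
  · refine le_trans (le_of_eq ?_) h4
    rw [show γ * (((T ^ 2).factorial * s : ℕ) : ℝ) / 2 = γ / 2 * (((T ^ 2).factorial * s : ℕ) : ℝ) by
      ring]
    ring

end Pool.Agent.K1H65.HF
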